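import Pool.Agent.helper10.EGH.SpecP

set_option autoImplicit false

open Complex Metric Set Filter Topology MeasureTheory
open WP (it)

noncomputable section

namespace EGH

theorem CPB_sub (p : ℂ) (ρ t : ℝ) (ι : Finset ℕ) (b : ℕ → ℂ) (r : ℕ → ℝ) (hρ : 0 < ρ) (ht : t ≤ 2) :
    OC p (t * ρ) ι b r ⊆ ball p (3 * ρ) := by
  intro w hw
  have h1 : w ∈ ball p (t * ρ) := hw.1
  rw [mem_ball] at h1 ⊢
  have : t * ρ ≤ 2 * ρ := mul_le_mul_of_nonneg_right ht hρ.le
  linarith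

theorem CPB_open (p : ℂ) (R : ℝ) (ι : Finset ℕ) (b : ℕ → ℂ) (r : ℕ → ℝ) : IsOpen (OC p R ι b r) := by
  unfold OC
  exact isOpen_ball.sdiff (ι.finite_toSet.isClosed_biUnion fun i _ => isClosed_closedBall)

theorem CPB : CPB_stmt := by
  intro f q Λ e ρ t h p S P DP ι b r m H
  have hsub : OC p (t * ρ) ι b r ⊆ ball p (3 * ρ) := CPB_sub p ρ t ι b r H.hρ H.ht.2
  have hFS : ∀ w ∈ OC p (t * ρ) ι b r, it f q (S w) = w := fun w hw => (H.SF w (hsub hw)).2
  have hSF : ∀ w ∈ ball p (4 * ρ), it f q w ∈ ball p (3 * ρ) → S (it f q w) = w := by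
    intro w hw hFw
    have h1 := H.SF _ hFw
    exact H.inj h1.1 hw h1.2
  have hP : ∀ z ∈ Rh h, P z ∈ OC p (t * ρ) ι b r ∧ P z ∈ ball p (4 * ρ) ∧ P z ∈ ball p (3 * ρ) := by
    intro z hz
    obtain ⟨h1, -, h3⟩ := H.bx z hz
    have hρ := H.hρ
    have htρ : ρ ≤ t * ρ := by
      have := mul_le_mul_of_nonneg_right H.ht.1 hρ.le
      linarith
    have hd : dist (P z) p ≤ 3 / 4 * ρ := by rw [dist_eq_norm]; exact h1
    refine ⟨⟨?_, ?_⟩, ?_, ?_⟩
    · rw [mem_ball]; linarith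
    · intro hmem
      rw [mem_iUnion₂] at hmem
      obtain ⟨i, hi, hb⟩ := hmem
      have h4 := h3 i hi
      have h5 := H.di i hi
      rw [mem_closedBall, dist_eq_norm] at hb
      linarith [h5.1, h5.2.1]
    · rw [mem_ball]; linarith
    · rw [mem_ball]; linarith
  have hR1 : ∀ s ∈ Ioo (0 : ℝ) h, (⟨1, s⟩ : ℂ) ∈ Rh h := by
    intro s hs
    exact ⟨by simp, hs⟩
  have hR0 : ∀ s ∈ Ioo (0 : ℝ) h, (⟨0, s⟩ : ℂ) ∈ Rh h := by
    intro s hs
    exact ⟨by simp, hs⟩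
  have hli : ∀ s ∈ Ioo (0 : ℝ) h, P ⟨1, s⟩ ∈ OC p (t * ρ) ι b r ∧ S (P ⟨1, s⟩) = P ⟨0, s⟩ := by
    intro s hs
    refine ⟨(hP _ (hR1 s hs)).1, ?_⟩
    rw [H.en s hs]
    apply hSF _ (hP _ (hR0 s hs)).2.1
    rw [← H.en s hs]
    exact (hP _ (hR1 s hs)).2.2
  refine ⟨?_, ?_, hFS, hSF⟩
  · refine
      { kap := by norm_num
        hp := H.hp
        im := fun l _ => measurableSet_Ioo
        is := fun l _ => Subset.rfl
        op := CPB_open _ _ _ _ _
        bd := isBounded_ball.subset hsub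
        ho := H.hS.mono hsub
        inj := ?_
        de := fun l _ => H.de
        co := fun l _ => H.co
        ja := fun l _ => H.ja
        nr := ?_
        li := fun l _ => hli }
    · intro w hw w' hw' he
      rw [← hFS w hw, ← hFS w' hw', he]
    · intro l hl l' hl' n s hs s' hs' x hx x' hx' hA hE
      obtain ⟨h1, h2, h3⟩ := H.nr n s hs s' hs' x hx x' hx' hA hE
      exact ⟨h1, by omega, h2, h3⟩
  · intro l hl s hs
    refine ⟨?_, ?_⟩
    · intro i hi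
      have : i = 0 := by omega
      subst this
      exact (hli s hs).1
    · exact (hli s hs).2

end EGH
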